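import Mathlib

set_option autoImplicit false

/-!
MP_1f31dd_nt, project AB: the second order term of `F(n) = max (m + p(m))`.

Target (FIN): there are `c, C > 0` such that for every `κ ∈ (0, 1]` and all large `N`
`c κ^2 N ≤ #{n ≤ N : F(n) ≥ n + sqrt n - κ n^(1/4) log n} ≤ C κ^2 N`.

Every row proves one `ST_X` from the `ST_` named in its doc string (hypotheses of the theorem `st_X`).
Library: `Pool.Agent.Helper99.AA.All` (project AA: `all_PN`, `all_PI : ST_PI`),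
`Pool.Agent.Helper18.MR.BT` (`bt_count st_SEL`: Brun-Titchmarsh), `Pool.Agent.Helper38.SO.Sieve`
(the sieve for `≤ 3` classes), `Chebyshev.*` in Mathlib.
-/

open Finset
open scoped BigOperators

namespace Pool.Agent.Helper99.AB

/-! ### Definitions -/

/-- Largest value of `m + p(m)` over the composite `m < n`. -/
def Fn (n : ℕ) : ℕ :=
  ((Finset.range n).filter (fun m => 1 < m ∧ ¬ m.Prime)).sup (fun m => m + m.minFac)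

/-- `exp (∑_{l ∣ n} 1 / l)` over the primes `l`. -/
noncomputable def G (n : ℤ) : ℝ := Real.exp (∑ l ∈ n.natAbs.primeFactors, 1 / (l : ℝ))

/-- Primes in `(M, 3M]`. -/
noncomputable def PM (M : ℝ) : Finset ℕ := (Ioc ⌊M⌋₊ ⌊3 * M⌋₊).filter Nat.Prime

/-- `κ sqrt M log M`. -/
noncomputable def Le (κ M : ℝ) : ℝ := κ * Real.sqrt M * Real.log M

/-- `κ M^(3/2) / log M`, the order of the number of close pairs. -/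
noncomputable def Qm (κ M : ℝ) : ℝ := κ * M * Real.sqrt M / Real.log M

open Classical in
/-- Close pairs of primes. -/
noncomputable def CP (κ M : ℝ) : Finset (ℕ × ℕ) :=
  (PM M ×ˢ PM M).filter (fun r => r.1 < r.2 ∧ (r.2 : ℝ) ≤ r.1 + Le κ M)

open Classical in
/-- Pairs of close pairs with close products. -/
noncomputable def TP (κ M : ℝ) : Finset ((ℕ × ℕ) × (ℕ × ℕ)) :=
  (CP κ M ×ˢ CP κ M).filter (fun s => s.2.1 * s.2.2 < s.1.1 * s.1.2 ∧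
    ((s.1.1 * s.1.2 : ℕ) : ℝ) < ((s.2.1 * s.2.2 : ℕ) : ℝ) + Le κ M)

/-- Differences of the four forms `x - β'`, `x + β'`, `x + i - β`, `x + i + β`. -/
def EE (k : Fin 6) (i β β' : ℕ) : ℤ :=
  ![2 * (β : ℤ), 2 * (β' : ℤ), i - β + β', i - β - β', i + β + β', i + β - β'] k

open Classical in
/-- The parameters `(i, β, β')`. -/
noncomputable def RR (κ M : ℝ) : Finset (ℕ × ℕ × ℕ) :=
  (Icc 1 ⌊Real.log M ^ 2⌋₊ ×ˢ Icc 1 ⌊Le κ M / 2⌋₊ ×ˢ Icc 1 ⌊Le κ M / 2⌋₊).filter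
    (fun r => (r.1 : ℝ) * M < (r.2.1 : ℝ) ^ 2 - (r.2.2 : ℝ) ^ 2 ∧
      (r.2.1 : ℝ) ^ 2 - (r.2.2 : ℝ) ^ 2 < 7 * (r.1 : ℝ) * M)

open Classical in
/-- The quadruples of primes `x - β'`, `x + β'`, `x + i - β`, `x + i + β` with parameters
`((i, β, β'), x)`. -/
noncomputable def ZZ (κ M : ℝ) : Finset ((ℕ × ℕ × ℕ) × ℕ) :=
  (RR κ M ×ˢ Icc 1 ⌊3 * M⌋₊).filter (fun s => (∀ k, EE k s.1.1 s.1.2.1 s.1.2.2 ≠ 0) ∧
    |(s.1.1 : ℝ) * (2 * s.2 + s.1.1) - ((s.1.2.1 : ℝ) ^ 2 - (s.1.2.2 : ℝ) ^ 2)| < Le κ M ∧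
    (∃ p ∈ PM M, (p : ℤ) = s.2 - s.1.2.2) ∧ (∃ p ∈ PM M, (p : ℤ) = s.2 + s.1.2.2) ∧
    (∃ p ∈ PM M, (p : ℤ) = s.2 + s.1.1 - s.1.2.1) ∧ (∃ p ∈ PM M, (p : ℤ) = s.2 + s.1.1 + s.1.2.1))

/-! ### The sieve -/

/-- SV4: upper bound sieve with at most four classes per prime (adapt
`Pool.Agent.Helper38.SO.Sieve`, where it is done for three classes and `7 ≤ l`). -/
def ST_SV4 : Prop := ∃ (b : ℕ) (C : ℝ), 1 ≤ b ∧ 0 < C ∧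
  ∀ (z N : ℕ) (P : Finset ℕ) (Ω : (l : ℕ) → Finset (ZMod l)), 2 ≤ z → z ^ b ≤ N →
  (∀ l ∈ P, l.Prime ∧ 11 ≤ l ∧ l ≤ z ∧ (Ω l).card ≤ 4) →
  ∀ S : Finset ℕ, (∀ t ∈ S, t < N ∧ ∀ l ∈ P, (t : ZMod l) ∉ Ω l) →
  (S.card : ℝ) ≤ C * N * Real.exp (-∑ l ∈ P, ((Ω l).card : ℝ) / l)

/-- QF (from SV4): four shifts of an integer in an interval, all primes.
Proof. `z = ⌊X^(1/b')⌋`, `b' = max b 2`, so `z ≤ sqrt X ≤ M` and the primes are `> z`; `Ω l` = the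
classes of `t` with `u + 1 + t + h i ≡ 0` for some `i`, of cardinality `4` if `l` divides no
difference `h i - h k` and `≥ 1` always. So `∑ |Ω l| / l ≥ 4 ∑_{11 ≤ l ≤ z} 1/l - 3 ∑_{i<k} ∑_{l ∣ h i -
h k} 1/l`, Mertens (lower bound `∑_{l ≤ z} 1/l ≥ log log z - C`). -/
def ST_QF : Prop := ∃ C : ℝ, 0 < C ∧ ∃ X₀ : ℕ, ∀ (X : ℕ) (u : ℤ) (h : Fin 4 → ℤ) (M : ℝ),
  X₀ ≤ X → (X : ℝ) ≤ M ^ 2 → 0 < M → (∀ i k, i < k → h i ≠ h k) →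
  ∀ S : Finset ℤ, (∀ x ∈ S, u < x ∧ x ≤ u + X ∧ ∀ i, ∃ p : ℕ, p.Prime ∧ M < p ∧ (p : ℤ) = x + h i) →
  (S.card : ℝ) ≤ C * (X / Real.log X ^ 4) *
    ∏ r ∈ (univ : Finset (Fin 4 × Fin 4)).filter (fun r => r.1 < r.2), G (h r.1 - h r.2) ^ 3

/-- GA: averages of powers of `G` over intervals.
Proof. The primes `l ∣ n` with `l > log x` contribute `≤ 2` to the sum `∑ 1/l` (at most `2 log x` of
them). For the others `e^(K/l) ≤ 1 + c / l` with `c = K e^K`, so `G(n)^K ≤ e^(2K) ∑_{d ∣ n, d ∣ P}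
c^ω(d) / d`, `P` = product of the primes `≤ log x`; the number of multiples of `d` is `≤ H / d + 1`;
`∏ (1 + c/l^2) ≤ C` and `∏_{l ≤ log x} (1 + c/l) ≤ C (log log x + 2)^c ≤ C log x`. -/
def ST_GA : Prop := ∀ K : ℕ, ∃ C : ℝ, 0 < C ∧ ∀ (u : ℤ) (H : ℕ) (x : ℝ), 3 ≤ x →
  (∀ n ∈ Ioc u (u + H), |(n : ℝ)| ≤ x) →
  ∑ n ∈ (Ioc u (u + H)).filter (fun n => n ≠ 0), G n ^ K ≤ C * (H + Real.log x)

/-! ### Pairs of close pairs -/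

/-- Z1: reduction to parameters.
Proof. All the primes are odd; `a = (p+q)/2`, `b = (q-p)/2`, `a', b'` for the second pair, so
`p q = a^2 - b^2`. If `a > a'`: `i = a - a'`, `x = a'`, `β = b`, `β' = b'`; if `a < a'`: `i = a' - a`,
`x = a`, `β = b'`, `β' = b`: in both cases the primes are `x ∓ β'`, `x + i ∓ β`, and `|i (2x+i) -
(β^2 - β'^2)| < Le`. The map is injective in each case. No form difference vanishes: else the two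
pairs have a common prime and the products differ by at least `2 M > Le` (or agree). Bounds: `2 i M <
i (2x+i) < β^2 - β'^2 + Le ≤ Le^2/4 + Le`, so `i ≤ (log M)^2`; `β^2 - β'^2 > 2iM - Le > iM` and
`β^2 - β'^2 < i (6M + i) + Le < 7 i M`. -/
def ST_Z1 : Prop := ∀ κ : ℝ, 0 < κ → κ ≤ 1 → ∃ M₀ : ℝ, ∀ M : ℝ, M₀ ≤ M →
  ((TP κ M).filter (fun s => s.1.1 + s.1.2 ≠ s.2.1 + s.2.2)).card ≤ 2 * (ZZ κ M).card

/-- Z2 (from QF): for fixed `(i, β, β')` the `x` lie in an interval with `X = ⌊Le/i⌋ + 1` integers,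
`M^(1/3) ≤ X ≤ M^2`; QF with the shifts `-β', β', i - β, i + β`; and `∏_{k<6} G(E_k)^3 ≤ ∑_k
G(E_k)^18`. -/
def ST_Z2 : Prop := ∃ C : ℝ, 0 < C ∧ ∀ κ : ℝ, 0 < κ → κ ≤ 1 → ∃ M₀ : ℝ, ∀ M : ℝ, M₀ ≤ M →
  ((ZZ κ M).card : ℝ) ≤ C * (Le κ M / Real.log M ^ 4) * ∑ k : Fin 6,
    ∑ r ∈ (RR κ M).filter (fun r => EE k r.1 r.2.1 r.2.2 ≠ 0), 1 / (r.1 : ℝ) *
      G (EE k r.1 r.2.1 r.2.2) ^ 18

/-- Z3 (from GA): the sums over the parameters.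
Proof. `∑_{A < i < 7A} 1/i ≤ 4` for every real `A > 0` (here `A = (β^2 - β'^2) / (7M)`). `k = 0, 1`:
sum over `i` first, then GA over `[1, Le/2]` (`G(2β) ≤ 2 G(β)`). `k = 2, ..., 5`: for fixed `i, β` the
`β'` form an interval of integers (`7iM > β^2 - β'^2 > iM`), `EE k` runs over an interval, GA with
`x = 4 Le` gives `≤ C (number of β' + log M)`; then `∑_{i,β} (1/i) log M ≤ C Le (log M)^2 ≤ Le^2`. -/
def ST_Z3 : Prop := ∃ C : ℝ, 0 < C ∧ ∀ κ : ℝ, 0 < κ → κ ≤ 1 → ∃ M₀ : ℝ, ∀ M : ℝ, M₀ ≤ M →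
  ∀ k : Fin 6, ∑ r ∈ (RR κ M).filter (fun r => EE k r.1 r.2.1 r.2.2 ≠ 0), 1 / (r.1 : ℝ) *
      G (EE k r.1 r.2.1 r.2.2) ^ 18 ≤ C * Le κ M ^ 2

/-- T1 (from Z1, Z2, Z3): `Le^3 / (log M)^4 = κ^2 Qm`. -/
def ST_T1 : Prop := ∃ C : ℝ, 0 < C ∧ ∀ κ : ℝ, 0 < κ → κ ≤ 1 → ∃ M₀ : ℝ, ∀ M : ℝ, M₀ ≤ M →
  (((TP κ M).filter (fun s => s.1.1 + s.1.2 ≠ s.2.1 + s.2.2)).card : ℝ) ≤ C * (κ ^ 2 * Qm κ M)

/-- T0 (from QF, GA): pairs with the same sum.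
Proof. `a = a'`, `b' > b ≥ 1`, `h = b' - b ≥ 1`, `h (2b + h) < Le`. For fixed `(b, h)` the `a ∈ (M, 3M]`
with `a ± b`, `a ± (b + h)` primes: QF with `X = ⌊2M⌋ + 1`; the differences are (up to sign) `2b`, `h`
(twice), `2b + h` (twice), `2b + 2h`; `∏ G^3 ≤ ∑ G^18`. Sums: `b < Le / (2h)`, `h^2 < Le`; GA over `b` for the
differences containing `b`, and `∑_{h ≤ H} G(h)^18 / h ≤ C (log H + 1)` by dyadic blocks. Total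
`≤ C (M / (log M)^4) Le log Le ≤ C κ M^(3/2) / (log M)^2 = o(Qm)`. -/
def ST_T0 : Prop := ∀ κ : ℝ, 0 < κ → κ ≤ 1 → ∃ M₀ : ℝ, ∀ M : ℝ, M₀ ≤ M →
  (((TP κ M).filter (fun s => s.1.1 + s.1.2 = s.2.1 + s.2.2)).card : ℝ) ≤ κ ^ 2 * Qm κ M

/-- CH (from `Pool.Agent.Helper99.AA.ST_PI` with `δ = 1`, i.e. `all_PI`, or Chebyshev): many close pairs.
Proof. At least `M / (2 log M)` primes in `(M, 2M]`; blocks of length `Le`; Cauchy-Schwarz (or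
`n (n-1) / 2 ≥ m (n - m/2 - 1/2)`), `Le / (log M)^2 → ∞`... the number of pairs in the same block is
`≥ (1/2) (M/(2 log M))^2 / (M/Le + 1) - #primes`. -/
def ST_CH : Prop := ∃ c : ℝ, 0 < c ∧ ∀ κ : ℝ, 0 < κ → κ ≤ 1 → ∃ M₀ : ℝ, ∀ M : ℝ, M₀ ≤ M →
  c * Qm κ M ≤ ((CP κ M).card : ℝ)

open Classical in
/-- UN (from T1, T0, CH): Cauchy-Schwarz.
Proof. `ℓ = ⌊Le⌋`, `r(n) = #{(p,q) ∈ CP : p q < n ≤ p q + ℓ}`, `∑ r = ℓ |CP|`, `∑ r^2 ≤ ℓ (|CP| + 2 |TP|)`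
(pairs with equal products coincide), so the number of `n` with `r(n) > 0` is
`≥ ℓ |CP|^2 / (|CP| + 2 |TP|)`, increasing in `|CP|`; `Qm ℓ ≥ κ^2 M^2 / 2`. -/
def ST_UN : Prop := ∃ c : ℝ, 0 < c ∧ ∀ κ : ℝ, 0 < κ → κ ≤ 1 → ∃ M₀ : ℝ, ∀ M : ℝ, M₀ ≤ M →
  c * (κ ^ 2 * M ^ 2) ≤ (((Icc 1 ⌊16 * M ^ 2⌋₊).filter (fun n : ℕ => ∃ r ∈ CP κ M,
    r.1 * r.2 < n ∧ (n : ℝ) ≤ ((r.1 * r.2 : ℕ) : ℝ) + Le κ M)).card : ℝ)

open Classical in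
/-- FB (from UN): the lower bound.
Proof. `M = sqrt N / 4`. If `n` is counted in UN then `Fn n ≥ p q + p ≥ n - Le + p`, `sqrt n ≤ p + Le`
(as `n ≤ p (p + Le) + Le ≤ (p + Le)^2`), and `2 Le κ M ≤ κ n^(1/4) log n` since `M ≤ sqrt n`. -/
def ST_FB : Prop := ∃ c : ℝ, 0 < c ∧ ∀ κ : ℝ, 0 < κ → κ ≤ 1 → ∃ N₀ : ℕ, ∀ N : ℕ, N₀ ≤ N →
  c * (κ ^ 2 * N) ≤ (((Icc 1 N).filter (fun n : ℕ => (n : ℝ) + Real.sqrt n -
    κ * (n : ℝ) ^ (1 / 4 : ℝ) * Real.log n ≤ (Fn n : ℝ))).card : ℝ)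

/-! ### The upper bound -/

open Classical in
/-- BP (from `bt_count st_SEL` in `Helper18/MR/BT.lean` and Chebyshev's bound for `π(x)`): pairs of
primes at distance `≤ h`. -/
def ST_BP : Prop := ∃ C : ℝ, 0 < C ∧ ∃ x₀ : ℝ, ∀ x h : ℝ, x₀ ≤ x → x ^ (1 / 4 : ℝ) ≤ h → h ≤ x →
  ((((Icc 1 ⌊2 * x⌋₊) ×ˢ (Icc 1 ⌊2 * x⌋₊)).filter (fun r : ℕ × ℕ => r.1.Prime ∧ r.2.Prime ∧
    r.1 ≤ r.2 ∧ (r.1 : ℝ) ≤ x ∧ (r.2 : ℝ) ≤ r.1 + h)).card : ℝ) ≤ C * (x * h / Real.log x ^ 2)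

open Classical in
/-- HA (from BP): the upper bound.
Proof. Drop the `n ≤ κ^2 N`. Let `ℓ = κ N^(1/4) log N` and `m < n` composite with `m + p(m) = Fn n ≥ n +
sqrt n - ℓ`. As `p(m) ≤ sqrt m < sqrt n`: `m ≥ n - ℓ`, `p = p(m) ≥ sqrt n - ℓ`, so `p^3 > n > m` and `m = p q`
with `q ≥ p` prime, `q ≤ n / (sqrt n - ℓ) ≤ sqrt n + 2ℓ ≤ p + 3ℓ`. Each pair gives at most `ℓ + 1` values `n`.
BP with `x = sqrt N`, `h = 3ℓ` (or `max (3ℓ) x^(1/4)`). -/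
def ST_HA : Prop := ∃ C : ℝ, 0 < C ∧ ∀ κ : ℝ, 0 < κ → κ ≤ 1 → ∃ N₀ : ℕ, ∀ N : ℕ, N₀ ≤ N →
  (((Icc 1 N).filter (fun n : ℕ => (n : ℝ) + Real.sqrt n -
    κ * (n : ℝ) ^ (1 / 4 : ℝ) * Real.log n ≤ (Fn n : ℝ))).card : ℝ) ≤ C * (κ ^ 2 * N)

end Pool.Agent.Helper99.AB
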