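import Pool.Agent.Helper99.AB.Stmts

set_option autoImplicit false

/-! Row Z1 of project AB: the parametrization of pairs of close pairs. -/

open Finset
open scoped BigOperators

namespace Pool.Agent.Helper99.AB

/-- The parameters of a pair of pairs. -/
def z1map (s : (ℕ × ℕ) × (ℕ × ℕ)) : (ℕ × ℕ × ℕ) × ℕ :=
  (((s.1.1 + s.1.2) / 2 - (s.2.1 + s.2.2) / 2, (s.1.2 - s.1.1) / 2, (s.2.2 - s.2.1) / 2),
    (s.2.1 + s.2.2) / 2)

theorem z1_mem_PM {M : ℝ} (hM : 0 ≤ M) {p : ℕ} : p ∈ PM M ↔ p.Prime ∧ M < p ∧ (p : ℝ) ≤ 3 * M := by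
  unfold PM
  rw [mem_filter, mem_Ioc, Nat.floor_lt hM, Nat.le_floor_iff (by linarith)]
  tauto

theorem z1_pair {M κ : ℝ} (hM : 3 ≤ M) {p q : ℕ} (h : (p, q) ∈ CP κ M) :
    p.Prime ∧ q.Prime ∧ M < p ∧ (q : ℝ) ≤ 3 * M ∧ (q : ℝ) ≤ p + Le κ M ∧ p ∈ PM M ∧ q ∈ PM M ∧
      ∃ b : ℕ, 1 ≤ b ∧ q = p + 2 * b := by
  unfold CP at h
  rw [mem_filter, mem_product] at h
  obtain ⟨⟨h1, h2⟩, h3, h4⟩ := h
  simp only at h1 h2 h3 h4
  have h1' := (z1_mem_PM (by linarith)).1 h1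
  have h2' := (z1_mem_PM (by linarith)).1 h2
  refine ⟨h1'.1, h2'.1, h1'.2.1, h2'.2.2, h4, h1, h2, ?_⟩
  have hp2 : p ≠ 2 := by
    rintro rfl
    have := h1'.2.1
    norm_num at this
    linarith
  have hq2 : q ≠ 2 := by
    rintro rfl
    have := h2'.2.1
    norm_num at this
    linarith
  have ho1 : p % 2 = 1 := h1'.1.eq_two_or_odd.resolve_left hp2
  have ho2 : q % 2 = 1 := h2'.1.eq_two_or_odd.resolve_left hq2
  exact ⟨(q - p) / 2, by omega, by omega⟩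

theorem z1_common {M L : ℝ} (hL : L ≤ M) {c u v : ℕ} (hc : M < c) (huv : c * u ≠ c * v) :
    L < |((c : ℝ) * u - c * v)| := by
  have huv' : u ≠ v := fun h => huv (by rw [h])
  have h1 : (1 : ℝ) ≤ |(u : ℝ) - v| := by
    have : (1 : ℤ) ≤ |(u : ℤ) - v| := by
      apply Int.one_le_abs
      intro h
      apply huv'
      omega
    exact_mod_cast this
  have hc0 : (0 : ℝ) ≤ c := Nat.cast_nonneg c
  have h2 : |((c : ℝ) * u - c * v)| = c * |(u : ℝ) - v| := by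
    rw [← mul_sub, abs_mul, abs_of_nonneg hc0]
  rw [h2]
  nlinarith

theorem z1_mem {M κ : ℝ} (hM : 3 ≤ M) (hκ : 0 < κ) (hκ1 : κ ≤ 1) (hlog : 1 ≤ Real.log M)
    (hLe : Le κ M ≤ M) {p q p' q' : ℕ} (h1 : (p, q) ∈ CP κ M) (h2 : (p', q') ∈ CP κ M)
    (hne : p * q ≠ p' * q') (hl : |((p : ℝ) * q - p' * q')| < Le κ M) (hs : p' + q' < p + q) :
    z1map ((p, q), (p', q')) ∈ ZZ κ M := by
  obtain ⟨hp, hq, hMp, hq3, hqL, hpM, hqM, b, hb1, hqb⟩ := z1_pair hM h1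
  obtain ⟨hp', hq', hMp', hq3', hqL', hpM', hqM', b', hb1', hqb'⟩ := z1_pair hM h2
  obtain ⟨i, hi⟩ : ∃ i : ℕ, p + b = p' + b' + i := ⟨p + b - (p' + b'), by omega⟩
  have hi1 : 1 ≤ i := by omega
  have hmap : z1map ((p, q), (p', q')) = ((i, b, b'), p' + b') := by
    unfold z1map
    simp only [Prod.mk.injEq]
    refine ⟨⟨?_, ?_, ?_⟩, ?_⟩ <;> omega
  rw [hmap]
  have hM0 : (0 : ℝ) < M := by linarith
  have hLe0 : 0 < Le κ M := by
    unfold Le
    have := Real.sqrt_pos.2 hM0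
    positivity
  -- real forms
  have rq : (q : ℝ) = p + 2 * b := by exact_mod_cast hqb
  have rq' : (q' : ℝ) = p' + 2 * b' := by exact_mod_cast hqb'
  have ri : (p : ℝ) + b = p' + b' + i := by exact_mod_cast hi
  have ri1 : (1 : ℝ) ≤ i := by exact_mod_cast hi1
  have rb1 : (1 : ℝ) ≤ b := by exact_mod_cast hb1
  have rb1' : (1 : ℝ) ≤ b' := by exact_mod_cast hb1'
  have hid : (i : ℝ) * (2 * ((p' : ℝ) + b') + i) - ((b : ℝ) ^ 2 - (b' : ℝ) ^ 2)
      = (p : ℝ) * q - p' * q' := by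
    have hp_eq : (p : ℝ) = p' + b' + i - b := by linarith
    rw [rq, rq', hp_eq]
    ring
  have hl' : |(i : ℝ) * (2 * ((p' : ℝ) + b') + i) - ((b : ℝ) ^ 2 - (b' : ℝ) ^ 2)| < Le κ M := by
    rw [hid]; exact hl
  obtain ⟨hl1, hl2⟩ := abs_lt.1 hl'
  -- a' = p' + b', a = p + b
  have ha' : M < (p' : ℝ) + b' := by linarith
  have ha'3 : (p' : ℝ) + b' ≤ 3 * M := by linarith
  have ha3 : (p' : ℝ) + b' + i ≤ 3 * M := by linarith
  have hbL : (b : ℝ) ≤ Le κ M / 2 := by linarith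
  have hbL' : (b' : ℝ) ≤ Le κ M / 2 := by linarith
  have ri0 : (0 : ℝ) ≤ i := by linarith
  have hlow : (i : ℝ) * (2 * M) + i * i ≤ (i : ℝ) * (2 * ((p' : ℝ) + b') + i) := by
    have := mul_le_mul_of_nonneg_left ha'.le ri0
    linarith
  have hup : (i : ℝ) * (2 * ((p' : ℝ) + b') + i) ≤ 6 * i * M := by
    have := mul_le_mul_of_nonneg_left (show 2 * ((p' : ℝ) + b') + i ≤ 6 * M by linarith) ri0
    linarith
  have hiM : M ≤ (i : ℝ) * M := by
    have := mul_le_mul_of_nonneg_right ri1 hM0.le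
    linarith
  have hb2 : (b : ℝ) ^ 2 ≤ (Le κ M / 2) ^ 2 := by
    apply pow_le_pow_left₀ (by linarith) hbL
  have hLe2 : Le κ M ^ 2 ≤ M * Real.log M ^ 2 := by
    unfold Le
    rw [mul_pow, mul_pow, Real.sq_sqrt hM0.le]
    have h2 : κ ^ 2 ≤ 1 := pow_le_one₀ hκ.le hκ1
    have h3 : 0 ≤ M * Real.log M ^ 2 := by positivity
    have := mul_le_mul_of_nonneg_right h2 h3
    linarith
  have hilog : (i : ℝ) ≤ Real.log M ^ 2 := by
    have h4 : (i : ℝ) * (2 * M) ≤ M * (Real.log M ^ 2 / 4 + 1) := by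
      have k1 : 0 ≤ (b' : ℝ) ^ 2 := by positivity
      have k2 : 0 ≤ (i : ℝ) * i := by positivity
      have k3 : (Le κ M / 2) ^ 2 = Le κ M ^ 2 / 4 := by ring
      rw [k3] at hb2
      linarith
    have h5 : (i : ℝ) * 2 ≤ Real.log M ^ 2 / 4 + 1 := by
      by_contra hc
      push Not at hc
      have := mul_lt_mul_of_pos_left hc hM0
      linarith
    have h6 : 1 ≤ Real.log M ^ 2 := one_le_pow₀ hlog
    linarith
  unfold ZZ RR
  simp only [mem_filter, mem_product, mem_Icc]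
  refine ⟨⟨⟨⟨⟨hi1, Nat.le_floor hilog⟩, ⟨hb1, Nat.le_floor hbL⟩, hb1', Nat.le_floor hbL'⟩, ?_, ?_⟩,
    by omega, ?_⟩, ?_, ?_, ⟨p', hpM', ?_⟩, ⟨q', hqM', ?_⟩, ⟨p, hpM, ?_⟩, ⟨q, hqM, ?_⟩⟩
  · have : 0 ≤ (i : ℝ) * i := by positivity
    linarith
  · linarith
  · apply Nat.le_floor
    push_cast
    linarith
  · -- EE
    have e2 : (i : ℤ) - b + b' = p - p' := by omega
    have e3 : (i : ℤ) - b - b' = p - q' := by omega
    have e4 : (i : ℤ) + b + b' = q - p' := by omega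
    have e5 : (i : ℤ) + b - b' = q - q' := by omega
    have n2 : p ≠ p' := by
      rintro rfl
      exact absurd hl (not_lt.2 (z1_common hLe hMp hne).le)
    have n3 : p ≠ q' := by
      rintro rfl
      refine absurd hl (not_lt.2 ?_)
      have := (z1_common (u := q) (v := p') hLe hMp (by rw [mul_comm p p']; exact hne)).le
      rwa [mul_comm (p : ℝ) p'] at this
    have n4 : q ≠ p' := by
      rintro rfl
      refine absurd hl (not_lt.2 ?_)
      have := (z1_common (u := p) (v := q') hLe hMp' (by rw [mul_comm q p]; exact hne)).le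
      rwa [mul_comm (q : ℝ) p] at this
    have n5 : q ≠ q' := by
      rintro rfl
      refine absurd hl (not_lt.2 ?_)
      have hMq : M < (q : ℝ) := by linarith
      have := (z1_common (u := p) (v := p') hLe hMq
        (by rw [mul_comm q p, mul_comm q p']; exact hne)).le
      rwa [mul_comm (q : ℝ) p, mul_comm (q : ℝ) p'] at this
    intro k
    fin_cases k
    · simp only [EE]; show (2 * (b : ℤ)) ≠ 0; omega
    · simp only [EE]; show (2 * (b' : ℤ)) ≠ 0; omega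
    · simp only [EE]; show ((i : ℤ) - b + b') ≠ 0; omega
    · simp only [EE]; show ((i : ℤ) - b - b') ≠ 0; omega
    · simp only [EE]; show ((i : ℤ) + b + b') ≠ 0; omega
    · simp only [EE]; show ((i : ℤ) + b - b') ≠ 0; omega
  · push_cast
    exact hl'
  · push_cast; omega
  · push_cast; omega
  · push_cast; omega
  · push_cast; omega

/-- The quadruple is determined by the parameters. -/
theorem z1_inj {M κ : ℝ} (hM : 3 ≤ M) {s t : (ℕ × ℕ) × (ℕ × ℕ)}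
    (hs1 : s.1 ∈ CP κ M) (hs2 : s.2 ∈ CP κ M) (ht1 : t.1 ∈ CP κ M) (ht2 : t.2 ∈ CP κ M)
    (hs : s.2.1 + s.2.2 < s.1.1 + s.1.2) (ht : t.2.1 + t.2.2 < t.1.1 + t.1.2)
    (h : z1map s = z1map t) : s = t := by
  obtain ⟨⟨p, q⟩, ⟨p', q'⟩⟩ := s
  obtain ⟨⟨r, v⟩, ⟨r', v'⟩⟩ := t
  obtain ⟨-, -, -, -, -, -, -, b, hb1, hb⟩ := z1_pair hM hs1
  obtain ⟨-, -, -, -, -, -, -, b', hb1', hb'⟩ := z1_pair hM hs2
  obtain ⟨-, -, -, -, -, -, -, d, hd1, hd⟩ := z1_pair hM ht1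
  obtain ⟨-, -, -, -, -, -, -, d', hd1', hd'⟩ := z1_pair hM ht2
  unfold z1map at h
  simp only [Prod.mk.injEq] at h hs ht ⊢
  obtain ⟨⟨h1, h2, h3⟩, h4⟩ := h
  refine ⟨⟨?_, ?_⟩, ?_, ?_⟩ <;> omega

theorem st_Z1 : ST_Z1 := by
  intro κ hκ hκ1
  have hev : ∀ᶠ M : ℝ in Filter.atTop, 3 ≤ M ∧ 1 ≤ Real.log M ∧ Le κ M ≤ M := by
    have e1 := (isLittleO_log_rpow_atTop (by norm_num : (0 : ℝ) < 1 / 2)).bound one_pos
    have e2 : ∀ᶠ M : ℝ in Filter.atTop, 1 ≤ Real.log M := Real.tendsto_log_atTop.eventually_ge_atTop 1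
    filter_upwards [e1, e2, Filter.eventually_ge_atTop 3] with M a1 a2 a3
    refine ⟨a3, a2, ?_⟩
    have hM0 : (0 : ℝ) < M := by linarith
    rw [Real.norm_of_nonneg (by linarith), Real.norm_of_nonneg (by positivity), one_mul,
      ← Real.sqrt_eq_rpow] at a1
    unfold Le
    have hs := Real.sqrt_nonneg M
    have hs2 := Real.mul_self_sqrt hM0.le
    have : Real.sqrt M * Real.log M ≤ Real.sqrt M * Real.sqrt M := mul_le_mul_of_nonneg_left a1 hs
    have h0 : 0 ≤ Real.sqrt M * Real.log M := by positivity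
    nlinarith
  obtain ⟨M₀, hM₀⟩ := Filter.eventually_atTop.1 hev
  refine ⟨M₀, fun M hM => ?_⟩
  obtain ⟨h3, hlog, hLe⟩ := hM₀ M hM
  classical
  set T := (TP κ M).filter (fun s => s.1.1 + s.1.2 ≠ s.2.1 + s.2.2) with hT
  have hTmem : ∀ s ∈ T, s.1 ∈ CP κ M ∧ s.2 ∈ CP κ M ∧ s.1.1 * s.1.2 ≠ s.2.1 * s.2.2 ∧
      |((s.1.1 : ℝ) * s.1.2 - s.2.1 * s.2.2)| < Le κ M ∧ s.1.1 + s.1.2 ≠ s.2.1 + s.2.2 := by
    intro s hs
    rw [hT, mem_filter] at hs
    unfold TP at hs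
    rw [mem_filter, mem_product] at hs
    obtain ⟨⟨⟨h1, h2⟩, h3, h4⟩, h5⟩ := hs
    refine ⟨h1, h2, by omega, ?_, h5⟩
    push_cast at h4
    have h6 : (s.2.1 : ℝ) * s.2.2 < s.1.1 * s.1.2 := by exact_mod_cast h3
    rw [abs_of_pos (by linarith)]
    linarith
  have hA : (T.filter (fun s => s.2.1 + s.2.2 < s.1.1 + s.1.2)).card ≤ (ZZ κ M).card := by
    apply card_le_card_of_injOn z1map
    · intro s hs
      rw [mem_coe, mem_filter] at hs
      obtain ⟨h1, h2, h3', h4, h5⟩ := hTmem s hs.1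
      rw [mem_coe]
      exact z1_mem h3 hκ hκ1 hlog hLe (p := s.1.1) (q := s.1.2) (p' := s.2.1) (q' := s.2.2) h1 h2 h3'
        h4 hs.2
    · intro s hs t ht hst
      rw [mem_coe, mem_filter] at hs ht
      obtain ⟨h1, h2, -⟩ := hTmem s hs.1
      obtain ⟨g1, g2, -⟩ := hTmem t ht.1
      exact z1_inj h3 h1 h2 g1 g2 hs.2 ht.2 hst
  have hB : (T.filter (fun s => ¬ s.2.1 + s.2.2 < s.1.1 + s.1.2)).card ≤ (ZZ κ M).card := by
    apply card_le_card_of_injOn (fun s => z1map (s.2, s.1))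
    · intro s hs
      rw [mem_coe, mem_filter] at hs
      obtain ⟨h1, h2, h3', h4, h5⟩ := hTmem s hs.1
      rw [mem_coe]
      have h6 := hs.2
      refine z1_mem h3 hκ hκ1 hlog hLe (p := s.2.1) (q := s.2.2) (p' := s.1.1) (q' := s.1.2) h2 h1
        (Ne.symm h3') ?_ (by omega)
      rw [abs_sub_comm]
      exact h4
    · intro s hs t ht hst
      rw [mem_coe, mem_filter] at hs ht
      obtain ⟨h1, h2, -, -, h5⟩ := hTmem s hs.1
      obtain ⟨g1, g2, -, -, g5⟩ := hTmem t ht.1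
      have h6 := hs.2
      have g6 := ht.2
      have := z1_inj (s := (s.2, s.1)) (t := (t.2, t.1)) h3 h2 h1 g2 g1 (by simp only; omega)
        (by simp only; omega) hst
      simp only [Prod.mk.injEq] at this
      exact Prod.ext this.2 this.1
  have hsum := card_filter_add_card_filter_not (s := T) (fun s => s.2.1 + s.2.2 < s.1.1 + s.1.2)
  omega

end Pool.Agent.Helper99.AB
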