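import Pool.Agent.Helper99.AA.All
import Pool.Agent.Helper18.AB.SV4
import Pool.Agent.Helper20.AB.QF
import Pool.Agent.Helper96.AB.GA
import Pool.Agent.Helper99.AB.Z1
import Pool.Agent.Helper71.AB.Z2
import Pool.Agent.Helper96.AB.Z3
import Pool.Agent.Helper28.AB.T1
import Pool.Agent.Helper8.AB.T0
import Pool.Agent.Helper79.AB.CH
import Pool.Agent.Helper8.AB.UN
import Pool.Agent.Helper71.AB.FB
import Pool.Agent.Helper29.AB.BP
import Pool.Agent.Helper29.AB.HA

set_option autoImplicit false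

/-! Assembly of project AB. -/

namespace Pool.Agent.Helper99.AB

theorem all_QF : ST_QF := st_QF st_SV4

theorem all_T1 : ST_T1 := Pool.Agent.Helper28.AB.st_T1 st_Z1 (Pool.Agent.Helper71.AB.st_Z2 all_QF)
  (Pool.Agent.Helper96.AB.st_Z3 Pool.Agent.Helper96.AB.st_GA)

theorem all_T0 : ST_T0 := Pool.Agent.Helper8.AB.T0.st_T0 all_QF Pool.Agent.Helper96.AB.st_GA

theorem all_UN : ST_UN :=
  Pool.Agent.Helper8.AB.UN.st_UN all_T1 all_T0 (st_CH Pool.Agent.Helper99.AA.all_PI)

theorem all_FB : ST_FB := Pool.Agent.Helper71.AB.st_FB all_UN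

theorem all_HA : ST_HA := st_HA st_BP

end Pool.Agent.Helper99.AB
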